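import Pool.Agent.H677_SC.Basic

set_option autoImplicit false

open Finset

namespace Pool.Agent.Results.MP_bdd522_nt.PartBFailsAtFive

/-- The generalized central trinomial coefficient `T_n(b, c)`, by its explicit formula. -/
def T (n : ℕ) (b c : ℤ) : ℤ :=
  ∑ j ∈ range (n / 2 + 1), (n.choose (2 * j) : ℤ) * ((2 * j).choose j : ℤ) * c ^ j * b ^ (n - 2 * j)

/-- The left side of the second congruence of (b). -/
def S (p : ℕ) : ℚ := ∑ k ∈ range p, (3 * k + 1) * (T k 2 3 : ℚ) ^ 3 / (-64) ^ k

/-- `u ≡ v` modulo `p ^ m` for rationals with denominator prime to `p`: the difference is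
`p ^ m` times a rational number whose denominator is not divisible by `p`. -/
def Congr (p m : ℕ) (u v : ℚ) : Prop := ∃ r : ℚ, ¬ p ∣ r.den ∧ u - v = (p : ℚ) ^ m * r

/-- The second congruence of (b) fails for `p = 5`. -/
theorem result : ¬ ∀ p : ℕ, p.Prime → 3 < p → Congr p 3 (S p) (p * (jacobiSym (-2) p : ℚ)) := by
  intro h
  obtain ⟨r, hr, he⟩ := h 5 (by norm_num) (by norm_num)
  have hj : jacobiSym (-2) 5 = -1 := by norm_num
  rw [hj] at he
  have hS : S 5 = 13743415 / 2097152 := by
    decide +kernel
  have key := Pool.Agent.H677_SC.dvd_of_den (p := 5) (m := 3) (by norm_num) hr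
    (d := 2097152)
    (N := 24229175) (by
      rw [← he, hS]
      norm_num)
  revert key
  norm_num

end Pool.Agent.Results.MP_bdd522_nt.PartBFailsAtFive
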